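import Pool.Agent.LR.FKDefs

/-! # Definitions used in the interface statements between the blocks (no proofs here) -/

set_option autoImplicit false

noncomputable section

open scoped BigOperators Topology
open MeasureTheory Filter Set

namespace Pool.Agent.LR

/-- Output of sections 2 and 3: `κ` is the effective stiffness. -/
structure KapSpec (α β κ : ℝ) : Prop where
  nonneg : 0 ≤ κ
  le : κ ≤ cc α β
  ta : ∀ a b c d : ℝ, a < b → c < d → ∀ H : P → ℝ, ContDiff ℝ 2 H →
    Tendsto (fun n : ℕ => Efr (JJ α β) (bx a b c d n) (smp H n)) atTop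
      (𝓝 (κ / 2 * ∫ z in rct a b c d, gsq H z))
  lowD : ∀ H : P → ℝ, ContDiff ℝ 1 H → HasCompactSupport H → ∀ Λ : ℕ → Finset V,
    (∀ᶠ n in atTop, Supp (Λ n) (smp H n)) → ∀ ε > 0, ∀ᶠ n in atTop,
      κ / 2 * Dir H - ε ≤ En (QD α β (Λ n)) (Λ n) (smp H n)

/-- Expectation in the free rooted model (for functions invariant under integer constants). -/
def Exr (J : V → V → ℝ) (S : Finset V) (h : V → ℝ) (F : (V → ℝ) → ℝ) : ℝ :=
  Ex (Qfr J S) (S.erase (root S)) h (fun ψ => F (emb (S.erase (root S)) ψ))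

/-- A sequence of macroscopic neutral charges in the rectangle with density `F`. -/
structure ChgConv (a b c d : ℝ) (q : ℕ → V → ℝ) (F : P → ℝ) : Prop where
  supp : ∀ n, Supp (bx a b c d n) (q n)
  bd : ∃ C, ∀ n x, |q n x| ≤ C / (n : ℝ) ^ 2
  conv : ∀ᵐ z : P, Tendsto (fun n : ℕ => (n : ℝ) ^ 2 * q n (⌊n * z.1⌋, ⌊n * z.2⌋)) atTop (𝓝 (F z))
  neut : ∀ n, ∑ x ∈ bx a b c d n, q n x = 0

/-- The feedback charge `f_a = -N(φA, ·)`, `φA` = explored part of the field, `N` = pins form. -/
def fb {W : Type*} [DecidableEq W] (N : BF W) (φA : W → ℝ) (x : W) : ℝ := -(N φA (Pi.single x 1))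

/-- restriction to a finite set -/
def restr {W : Type*} [DecidableEq W] (A : Finset W) (φ : W → ℝ) : W → ℝ :=
  fun x => if x ∈ A then φ x else 0

end Pool.Agent.LR
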