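import Mathlib

/-!
# LR project, block B3: section 1.9, convergence of moment generating functions implies
convergence in law to a centred Gaussian.
-/

open Filter MeasureTheory ProbabilityTheory Topology
open scoped ENNReal NNReal

namespace Pool.Agent.LR

/-- exponential moments of a limit point. -/
lemma limit_mgf {U : Filter ℕ} [U.NeBot] (μ : ℕ → ProbabilityMeasure ℝ) (μ' : ProbabilityMeasure ℝ)
    (L : ℝ → ℝ)
    (hint : ∀ n (s : ℝ), Integrable (fun x => Real.exp (s * x)) (μ n : Measure ℝ))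
    (h : ∀ s : ℝ, Tendsto (fun n => ∫ x, Real.exp (s * x) ∂(μ n : Measure ℝ)) U (𝓝 (L s)))
    (hU : Tendsto μ U (𝓝 μ')) (s : ℝ) :
    Integrable (fun x => Real.exp (s * x)) (μ' : Measure ℝ) ∧
      ∫ x, Real.exp (s * x) ∂(μ' : Measure ℝ) = L s := by
  classical
  -- bounded truncations
  let g : ℕ → BoundedContinuousFunction ℝ ℝ := fun M =>
    BoundedContinuousFunction.ofNormedAddCommGroup (fun x => min (Real.exp (s * x)) (M : ℝ))
      (by fun_prop) (M : ℝ) (by
        intro x
        rw [Real.norm_eq_abs, abs_of_nonneg (le_min (Real.exp_pos _).le (Nat.cast_nonneg _))]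
        exact min_le_right _ _)
  have hg : ∀ M x, g M x = min (Real.exp (s * x)) (M : ℝ) := fun M x => rfl
  have hconv : ∀ M, Tendsto (fun n => ∫ x, g M x ∂(μ n : Measure ℝ)) U
      (𝓝 (∫ x, g M x ∂(μ' : Measure ℝ))) := by
    intro M
    exact (ProbabilityMeasure.tendsto_iff_forall_integral_tendsto.1 hU) (g M)
  have hgi : ∀ (M : ℕ) (ν : ProbabilityMeasure ℝ), Integrable (fun x => g M x) (ν : Measure ℝ) :=
    fun M ν => (g M).integrable _
  -- upper bound
  have hup : ∀ M, ∫ x, g M x ∂(μ' : Measure ℝ) ≤ L s := by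
    intro M
    refine le_of_tendsto_of_tendsto (hconv M) (h s) (Eventually.of_forall fun n => ?_)
    exact integral_mono (hgi M _) (hint n s) (fun x => by rw [hg]; exact min_le_left _ _)
  have hL0 : 0 ≤ L s := by
    refine ge_of_tendsto (h s) (Eventually.of_forall fun n => ?_)
    exact integral_nonneg (fun x => (Real.exp_pos _).le)
  have hfatou : ∫⁻ x, ENNReal.ofReal (Real.exp (s * x)) ∂(μ' : Measure ℝ) ≤ ENNReal.ofReal (L s) := by
    have h1 : ∀ x : ℝ, Tendsto (fun M : ℕ => ENNReal.ofReal (g M x)) atTop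
        (𝓝 (ENNReal.ofReal (Real.exp (s * x)))) := by
      intro x
      refine (ENNReal.continuous_ofReal.tendsto _).comp ?_
      refine tendsto_const_nhds.congr' ?_
      obtain ⟨N, hN⟩ := exists_nat_ge (Real.exp (s * x))
      filter_upwards [eventually_ge_atTop N] with M hM
      rw [hg, min_eq_left]
      exact hN.trans (by exact_mod_cast hM)
    have h2 : ∫⁻ x, ENNReal.ofReal (Real.exp (s * x)) ∂(μ' : Measure ℝ)
        = ∫⁻ x, liminf (fun M : ℕ => ENNReal.ofReal (g M x)) atTop ∂(μ' : Measure ℝ) := by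
      refine lintegral_congr fun x => ?_
      exact (h1 x).liminf_eq.symm
    rw [h2]
    refine (lintegral_liminf_le (fun M => ?_)).trans ?_
    · exact ((g M).continuous.measurable).ennreal_ofReal
    · refine liminf_le_of_le (by isBoundedDefault) ?_
      intro b hb
      obtain ⟨M, hM⟩ := hb.exists
      refine hM.trans ?_
      rw [← ofReal_integral_eq_lintegral_ofReal (hgi M _)
        (Eventually.of_forall fun x => by
          show 0 ≤ g M x
          rw [hg]; exact le_min (Real.exp_pos _).le (Nat.cast_nonneg _))]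
      exact ENNReal.ofReal_le_ofReal (hup M)
  have hi : Integrable (fun x => Real.exp (s * x)) (μ' : Measure ℝ) := by
    refine ⟨by fun_prop, ?_⟩
    rw [hasFiniteIntegral_iff_ofReal (Eventually.of_forall fun x => (Real.exp_pos _).le)]
    exact lt_of_le_of_lt hfatou ENNReal.ofReal_lt_top
  refine ⟨hi, le_antisymm ?_ ?_⟩
  · have := hfatou
    rw [← ofReal_integral_eq_lintegral_ofReal hi
      (Eventually.of_forall fun x => (Real.exp_pos _).le)] at this
    exact (ENNReal.ofReal_le_ofReal_iff hL0).1 this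
  · -- lower bound
    have hlow : ∀ M : ℕ, 0 < M → L s ≤ ∫ x, Real.exp (s * x) ∂(μ' : Measure ℝ) + L (2 * s) / M := by
      intro M hM
      have hM' : (0 : ℝ) < M := by exact_mod_cast hM
      have h3 : ∀ n, ∫ x, Real.exp (s * x) ∂(μ n : Measure ℝ) ≤
          ∫ x, g M x ∂(μ n : Measure ℝ) + (∫ x, Real.exp (2 * s * x) ∂(μ n : Measure ℝ)) / M := by
        intro n
        rw [← integral_div, ← integral_add (hgi M _) ((hint n (2 * s)).div_const _)]
        refine integral_mono (hint n s) ((hgi M _).add ((hint n (2 * s)).div_const _)) fun x => ?_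
        show Real.exp (s * x) ≤ g M x + Real.exp (2 * s * x) / M
        rw [hg]
        rcases le_total (Real.exp (s * x)) (M : ℝ) with h4 | h4
        · rw [min_eq_left h4]
          have : 0 ≤ Real.exp (2 * s * x) / M := by positivity
          linarith
        · rw [min_eq_right h4]
          have h5 : Real.exp (2 * s * x) = Real.exp (s * x) * Real.exp (s * x) := by
            rw [← Real.exp_add]; ring_nf
          have h6 : Real.exp (s * x) ≤ Real.exp (2 * s * x) / M := by
            rw [le_div_iff₀ hM', h5]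
            exact mul_le_mul_of_nonneg_left h4 (Real.exp_pos _).le
          have := Real.exp_pos (s * x)
          linarith
      have h7 : L s ≤ ∫ x, g M x ∂(μ' : Measure ℝ) + L (2 * s) / M :=
        le_of_tendsto_of_tendsto (h s) ((hconv M).add ((h (2 * s)).div_const _))
          (Eventually.of_forall h3)
      refine h7.trans ?_
      have h8 : ∫ x, g M x ∂(μ' : Measure ℝ) ≤ ∫ x, Real.exp (s * x) ∂(μ' : Measure ℝ) :=
        integral_mono (hgi M _) hi (fun x => by rw [hg]; exact min_le_left _ _)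
      linarith
    have h9 : Tendsto (fun M : ℕ => ∫ x, Real.exp (s * x) ∂(μ' : Measure ℝ) + L (2 * s) / M) atTop
        (𝓝 (∫ x, Real.exp (s * x) ∂(μ' : Measure ℝ) + 0)) :=
      tendsto_const_nhds.add (tendsto_const_div_atTop_nhds_zero_nat _)
    rw [add_zero] at h9
    exact ge_of_tendsto h9 (by
      filter_upwards [eventually_gt_atTop 0] with M hM using hlow M hM)

/-- tightness from exponential moments. -/
lemma tight_of_exp (μ : ℕ → ProbabilityMeasure ℝ) (C : ℝ)
    (hint : ∀ n (s : ℝ), Integrable (fun x => Real.exp (s * x)) (μ n : Measure ℝ))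
    (h1 : ∀ n, ∫ x, Real.exp (1 * x) ∂(μ n : Measure ℝ) ≤ C)
    (h2 : ∀ n, ∫ x, Real.exp ((-1) * x) ∂(μ n : Measure ℝ) ≤ C) :
    IsTightMeasureSet {((μ n : ProbabilityMeasure ℝ) : Measure ℝ) | n} := by
  rw [isTightMeasureSet_iff_exists_isCompact_measure_compl_le]
  intro ε hε
  obtain ⟨δ, hδ, hδε⟩ := ENNReal.lt_iff_exists_nnreal_btwn.1 hε
  have hδ0 : (0 : ℝ) < δ := by exact_mod_cast hδ
  have hC : 0 ≤ C := (integral_nonneg (fun x => (Real.exp_pos _).le)).trans (h1 0)
  obtain ⟨R, hR⟩ : ∃ R : ℝ, 2 * C * Real.exp (-R) ≤ δ := by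
    have : Tendsto (fun R : ℝ => 2 * C * Real.exp (-R)) atTop (𝓝 (2 * C * 0)) :=
      (Real.tendsto_exp_neg_atTop_nhds_zero).const_mul _
    rw [mul_zero] at this
    exact ((this.eventually (gt_mem_nhds hδ0)).mono fun x hx => le_of_lt hx).exists
  refine ⟨Set.Icc (-R) R, isCompact_Icc, ?_⟩
  rintro _ ⟨n, rfl⟩
  refine le_trans ?_ hδε.le
  set ν := (μ n : Measure ℝ)
  have hf : Integrable (fun x => Real.exp (1 * x) + Real.exp ((-1) * x)) ν :=
    (hint n 1).add (hint n (-1))
  have key : ν (Set.Icc (-R) R)ᶜ ≤ ν {x | Real.exp R ≤ Real.exp (1 * x) + Real.exp ((-1) * x)} := by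
    refine measure_mono fun x hx => ?_
    simp only [Set.mem_compl_iff, Set.mem_Icc, not_and_or, not_le] at hx
    simp only [Set.mem_ofPred_eq]
    rcases hx with hx | hx
    · have : Real.exp R ≤ Real.exp ((-1) * x) := Real.exp_le_exp.2 (by linarith)
      have := Real.exp_pos (1 * x)
      linarith
    · have : Real.exp R ≤ Real.exp (1 * x) := Real.exp_le_exp.2 (by linarith)
      have := Real.exp_pos ((-1) * x)
      linarith
  refine key.trans ?_
  have hmk := mul_meas_ge_le_integral_of_nonneg (μ := ν)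
    (Eventually.of_forall fun x => (by positivity :
      0 ≤ Real.exp (1 * x) + Real.exp ((-1) * x))) hf (Real.exp R)
  rw [integral_add (hint n 1) (hint n (-1))] at hmk
  have h3 : ν.real {x | Real.exp R ≤ Real.exp (1 * x) + Real.exp ((-1) * x)} ≤ δ := by
    have h4 : ν.real {x | Real.exp R ≤ Real.exp (1 * x) + Real.exp ((-1) * x)} ≤
        2 * C * Real.exp (-R) := by
      rw [Real.exp_neg, ← div_eq_mul_inv, le_div_iff₀ (Real.exp_pos _), mul_comm]
      refine hmk.trans ?_
      have := h1 n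
      have := h2 n
      linarith
    exact h4.trans hR
  rw [measureReal_def] at h3
  rw [← ENNReal.ofReal_toReal (measure_ne_top ν _), ← ENNReal.ofReal_coe_nnreal]
  exact ENNReal.ofReal_le_ofReal h3

/-- **1.9 (measures)** convergence of the moment generating functions to the Gaussian one implies
weak convergence. -/
theorem tendsto_gaussian_of_mgf (μ : ℕ → ProbabilityMeasure ℝ) (v : ℝ≥0)
    (hint : ∀ n (s : ℝ), Integrable (fun x => Real.exp (s * x)) (μ n : Measure ℝ))
    (h : ∀ s : ℝ, Tendsto (fun n => ∫ x, Real.exp (s * x) ∂(μ n : Measure ℝ)) atTop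
      (𝓝 (Real.exp (v * s ^ 2 / 2)))) :
    Tendsto μ atTop (𝓝 (⟨gaussianReal 0 v, inferInstance⟩ : ProbabilityMeasure ℝ)) := by
  have hb : ∀ s : ℝ, ∃ C, ∀ n, ∫ x, Real.exp (s * x) ∂(μ n : Measure ℝ) ≤ C := by
    intro s
    obtain ⟨C, hC⟩ := (h s).bddAbove_range
    exact ⟨C, fun n => hC ⟨n, rfl⟩⟩
  obtain ⟨C1, hC1⟩ := hb 1
  obtain ⟨C2, hC2⟩ := hb (-1)
  have htight := tight_of_exp μ (max C1 C2) hint (fun n => (hC1 n).trans (le_max_left _ _))
    (fun n => (hC2 n).trans (le_max_right _ _))
  refine (Filter.tendsto_iff_ultrafilter _ _ _).2 fun U hU ↦ ?_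
  have h_compact : IsCompact (closure {μ n | n}) :=
    isCompact_closure_of_isTightMeasureSet (by simpa using htight)
  obtain ⟨μ', -, hμ' : Tendsto _ _ _⟩ := h_compact.ultrafilter_le_nhds (U.map μ)
    (.trans (by simp) (monotone_principal subset_closure))
  suffices hs : (μ' : Measure ℝ) = gaussianReal 0 v by
    have : μ' = (⟨gaussianReal 0 v, inferInstance⟩ : ProbabilityMeasure ℝ) :=
      Subtype.ext hs
    rw [← this]; exact hμ'
  have hlim := fun s => limit_mgf μ μ' (fun s => Real.exp (v * s ^ 2 / 2)) hint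
    (fun s => (h s).mono_left hU) hμ' s
  have hset : integrableExpSet id (μ' : Measure ℝ) = Set.univ := by
    ext s
    simpa [integrableExpSet] using (hlim s).1
  have hmgf : mgf id (μ' : Measure ℝ) = mgf id (gaussianReal 0 v) := by
    rw [mgf_id_gaussianReal]
    ext s
    rw [mgf]
    have := (hlim s).2
    simp only [id]
    rw [this]
    simp
  refine Measure.ext_of_complexMGF_id_eq ?_
  ext z
  have := eqOn_complexMGF_of_mgf hmgf (x := z) (by simp [hset])
  exact this

/-- **1.9 (characteristic functions).** -/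
theorem tendsto_charFun_of_mgf (μ : ℕ → ProbabilityMeasure ℝ) (v : ℝ≥0)
    (hint : ∀ n (s : ℝ), Integrable (fun x => Real.exp (s * x)) (μ n : Measure ℝ))
    (h : ∀ s : ℝ, Tendsto (fun n => ∫ x, Real.exp (s * x) ∂(μ n : Measure ℝ)) atTop
      (𝓝 (Real.exp (v * s ^ 2 / 2)))) (t : ℝ) :
    Tendsto (fun n => ∫ x, Complex.exp (t * x * Complex.I) ∂(μ n : Measure ℝ)) atTop
      (𝓝 (Complex.exp (-(v * t ^ 2 / 2)))) := by
  have h1 : Tendsto (fun n => charFun (μ n : Measure ℝ) t) atTop (𝓝 (charFun (gaussianReal 0 v) t)) :=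
    ProbabilityMeasure.tendsto_iff_tendsto_charFun.1 (tendsto_gaussian_of_mgf μ v hint h) t
  have h2 : charFun (gaussianReal 0 v) t = Complex.exp (-(v * t ^ 2 / 2)) := by
    rw [charFun_gaussianReal]
    simp
  rw [h2] at h1
  refine h1.congr fun n => ?_
  rw [charFun_apply_real]

end Pool.Agent.LR
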