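import Pool.Agent.LR.Defs

/-! # Clusters: definitions shared by sections 7 and 8 (edges on ORDERED pairs, coupling `J/2` each) -/

set_option autoImplicit false

noncomputable section

open scoped BigOperators Topology
open MeasureTheory Filter Set

namespace Pool.Agent.LR

variable {W : Type*} [DecidableEq W]

/-- Weight of a closed ordered edge. -/
def wcl (J a b : ℝ) : ℝ := Real.exp (-(J / 4) * (|a| + |b|) ^ 2)

/-- Weight of an open ordered edge. -/
def wop (J a b : ℝ) : ℝ := if 0 < a * b then Real.exp (-(J / 4) * (a - b) ^ 2) - wcl J a b else 0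

/-- Weight of the edge configuration `ω ⊆ S × S` given the field `φ`. Sum over `ω` is
`exp (-Q_S(φ)/2)`. -/
def we (J : W → W → ℝ) (S : Finset W) (φ : W → ℝ) (ω : Finset (W × W)) : ℝ :=
  ∏ p ∈ S ×ˢ S, if p ∈ ω then wop (J p.1 p.2) (φ p.1) (φ p.2) else wcl (J p.1 p.2) (φ p.1) (φ p.2)

/-- Weight of the ghost edge configuration `γ ⊆ S` (sites with open ghost edge), external field
`f ≥ 0`. Sum over `γ` is `exp ⟨f, φ⟩`. -/
def wg (f : W → ℝ) (S : Finset W) (φ : W → ℝ) (γ : Finset W) : ℝ :=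
  ∏ x ∈ S, if x ∈ γ then (if 0 < φ x then Real.exp (f x * φ x) - Real.exp (-(f x * |φ x|)) else 0)
    else Real.exp (-(f x * |φ x|))

/-- Adjacency of an edge configuration. -/
def adj (ω : Finset (W × W)) (x y : W) : Prop := (x, y) ∈ ω ∨ (y, x) ∈ ω

/-- Connection by open edges. -/
def conn (ω : Finset (W × W)) : W → W → Prop := Relation.ReflTransGen (adj ω)

open Classical in
/-- Sites of `S` connected to `R` (contains `R ∩ S`). -/
def reach (S : Finset W) (ω : Finset (W × W)) (R : Finset W) : Finset W :=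
  S.filter (fun x => ∃ r ∈ R, conn ω r x)

/-- Joint sum over fields and edges in the model `exp(-Q_S/2 - N/2 + ⟨f, ψ⟩)`; `N` = form of the pins. -/
def JS (J : W → W → ℝ) (N : BF W) (S : Finset W) (f : W → ℝ)
    (Φ : (W → ℝ) → Finset (W × W) → ℝ) : ℝ :=
  ∑' ψ : S → ℤ, Real.exp (-(1 / 2) * N (emb S ψ) (emb S ψ) + pr S f (emb S ψ)) *
    ∑ ω ∈ (S ×ˢ S).powerset, we J S (emb S ψ) ω * Φ (emb S ψ) ω

/-- Joint expectation. -/
def EJ (J : W → W → ℝ) (N : BF W) (S : Finset W) (f : W → ℝ)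
    (Φ : (W → ℝ) → Finset (W × W) → ℝ) : ℝ :=
  JS J N S f Φ / JS J N S f (fun _ _ => 1)

/-- Joint sum over fields, edges and ghost edges of `f`, tilt `f + g` in total. -/
def JSg (J : W → W → ℝ) (N : BF W) (S : Finset W) (f g : W → ℝ)
    (Φ : (W → ℝ) → Finset (W × W) → Finset W → ℝ) : ℝ :=
  ∑' ψ : S → ℤ, Real.exp (-(1 / 2) * N (emb S ψ) (emb S ψ) + pr S g (emb S ψ)) *
    ∑ ω ∈ (S ×ˢ S).powerset, ∑ γ ∈ S.powerset,
      we J S (emb S ψ) ω * wg f S (emb S ψ) γ * Φ (emb S ψ) ω γ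

/-- Joint expectation with ghost edges. -/
def EJg (J : W → W → ℝ) (N : BF W) (S : Finset W) (f g : W → ℝ)
    (Φ : (W → ℝ) → Finset (W × W) → Finset W → ℝ) : ℝ :=
  JSg J N S f g Φ / JSg J N S f g (fun _ _ _ => 1)

/-- The pins form `∑_i M δ² w_i ⊗ w_i`. -/
def pinF (z₀ : P) (ρ M δ : ℝ) (n : ℕ) : BF V :=
  ∑ i ∈ pin z₀ ρ δ, rk (M * δ ^ 2) (avg (blk z₀ ρ δ n i))

/-- Inner region `{|x/n - z₀| ≤ 2ρ}`. -/
def inR (z₀ : P) (ρ : ℝ) (n : ℕ) : Finset V := (SS z₀ ρ n).filter (fun x => lenP (sc n x - z₀) ≤ 2 * ρ)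

/-- Outer region `{|x/n - z₀| ≥ 5ρ}` in `S_n`. -/
def outR (z₀ : P) (ρ : ℝ) (n : ℕ) : Finset V := (SS z₀ ρ n).filter (fun x => 5 * ρ ≤ lenP (sc n x - z₀))

/-- Sites of the open ring `{aρ < |x/n - z₀| < (a+1)ρ}`, `a = 2, 4` (unpinned rings). -/
def ringL (z₀ : P) (ρ : ℝ) (a : ℕ) (n : ℕ) : Finset V :=
  (SS z₀ ρ n).filter (fun x => a * ρ < lenP (sc n x - z₀) ∧ lenP (sc n x - z₀) < (a + 1) * ρ)

/-- `K` contains a chain from `x` to `y` with jumps of length at most `r`. -/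
def chainIn (r : ℝ) (K : Finset V) (x y : V) : Prop :=
  Relation.ReflTransGen (fun u v => u ∈ K ∧ v ∈ K ∧ len (u - v) ≤ r) x y

end Pool.Agent.LR
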