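import Pool.Agent.LR.Coup
import Pool.Agent.LR.B1.Basic

/-!
# Basic facts about the forms (common file, helper32)
-/

set_option autoImplicit false
set_option linter.unusedSectionVars false

noncomputable section

open scoped BigOperators Topology
open MeasureTheory Filter Set

namespace Pool.Agent.LR

section Generic

variable {W : Type*} [DecidableEq W]

/-! ## Evaluation lemmas -/

theorem ev_apply (x : W) (f : W → ℝ) : ev x f = f x := rfl

theorem avg_apply (B : Finset W) (f : W → ℝ) : avg B f = (B.card : ℝ)⁻¹ * ∑ x ∈ B, f x := by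
  simp [avg, LinearMap.sum_apply, ev_apply]

theorem massF_apply (S : Finset W) (t : W → ℝ) (f g : W → ℝ) :
    massF S t f g = ∑ x ∈ S, t x * f x * g x := by
  simp [massF, LinearMap.sum_apply, rk_apply, ev_apply]

theorem Qfr_apply (J : W → W → ℝ) (S : Finset W) (f g : W → ℝ) :
    Qfr J S f g = ∑ x ∈ S, ∑ y ∈ S, J x y / 2 * (f x - f y) * (g x - g y) := by
  simp [Qfr, LinearMap.sum_apply, rk_apply, ev_apply]

theorem Qfr_self (J : W → W → ℝ) (S : Finset W) (f : W → ℝ) :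
    Qfr J S f f = ∑ x ∈ S, ∑ y ∈ S, J x y / 2 * (f x - f y) ^ 2 := by
  rw [Qfr_apply]
  refine Finset.sum_congr rfl fun x _ => Finset.sum_congr rfl fun y _ => by ring

/-! ## The class of forms -/

theorem isForm_massF {S : Finset W} {t : W → ℝ} (ht : ∀ x ∈ S, 0 ≤ t x) : IsForm (massF S t) :=
  IsForm.sum _ fun x hx => isForm_rk (ht x hx) _

theorem isForm_Qfr {J : W → W → ℝ} {S : Finset W} (hJ : ∀ x ∈ S, ∀ y ∈ S, 0 ≤ J x y) :
    IsForm (Qfr J S) :=
  IsForm.sum _ fun x hx => IsForm.sum _ fun y hy => isForm_rk (by linarith [hJ x hx y hy]) _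

theorem PDef.add_left {M N : BF W} {O : Finset W} (hM : PDef M O) (hN : IsForm N) :
    PDef (N + M) O := by
  intro f hf h0
  simp only [LinearMap.add_apply]
  have := hM f hf h0
  have := hN.nonneg f
  linarith

theorem Qfr_congr {J : W → W → ℝ} {S : Finset W} {f f' g g' : W → ℝ} {c d : ℝ}
    (hf : ∀ x ∈ S, f x = f' x + c) (hg : ∀ x ∈ S, g x = g' x + d) :
    Qfr J S f g = Qfr J S f' g' := by
  rw [Qfr_apply, Qfr_apply]
  refine Finset.sum_congr rfl fun x hx => Finset.sum_congr rfl fun y hy => ?_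
  rw [hf x hx, hf y hy, hg x hx, hg y hy]
  ring

theorem Qfr_const {J : W → W → ℝ} {S : Finset W} (c : ℝ) (g : W → ℝ) :
    Qfr J S (fun _ => c) g = 0 := by
  rw [Qfr_apply]
  simp

/-- The free form is positive definite on the functions vanishing at the root. -/
theorem pdef_Qfr_erase {J : W → W → ℝ} {S : Finset W} (hJ : ∀ x ∈ S, ∀ y ∈ S, 0 ≤ J x y)
    {r : W} (hr : r ∈ S) (hpos : ∀ x ∈ S, x ≠ r → 0 < J x r) : PDef (Qfr J S) (S.erase r) := by
  intro f hf h0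
  obtain ⟨x, hx⟩ := Function.ne_iff.1 h0
  have hxS : x ∈ S.erase r := by
    by_contra h
    exact hx (hf x h)
  have hfr : f r = 0 := hf r (Finset.notMem_erase r S)
  rw [Qfr_self]
  have hnn : ∀ x ∈ S, ∀ y ∈ S, 0 ≤ J x y / 2 * (f x - f y) ^ 2 := fun x hx y hy => by
    have := hJ x hx y hy
    positivity
  have h1 : J x r / 2 * (f x - f r) ^ 2 ≤ ∑ y ∈ S, J x y / 2 * (f x - f y) ^ 2 :=
    Finset.single_le_sum (f := fun y => J x y / 2 * (f x - f y) ^ 2)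
      (fun y hy => hnn x (Finset.mem_of_mem_erase hxS) y hy) hr
  have h2 : ∑ y ∈ S, J x y / 2 * (f x - f y) ^ 2 ≤
      ∑ x ∈ S, ∑ y ∈ S, J x y / 2 * (f x - f y) ^ 2 :=
    Finset.single_le_sum (f := fun x => ∑ y ∈ S, J x y / 2 * (f x - f y) ^ 2)
      (fun x hx => Finset.sum_nonneg fun y hy => hnn x hx y hy) (Finset.mem_of_mem_erase hxS)
  have h3 : 0 < J x r / 2 * (f x - f r) ^ 2 := by
    rw [hfr, sub_zero]
    have := hpos x (Finset.mem_of_mem_erase hxS) (Finset.ne_of_mem_erase hxS)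
    have h4 : 0 < f x ^ 2 := by
      have : f x ≠ 0 := hx
      positivity
    positivity
  linarith

end Generic

/-! ## The forms on `ℤ²` -/

theorem isForm_QF {α β : ℝ} (hβ : 0 ≤ β) (S : Finset V) : IsForm (QF α β S) :=
  isForm_Qfr fun x _ y _ => JJ_nonneg hβ x y

theorem pdef_QF_erase {α β : ℝ} (hβ : 0 < β) {S : Finset V} {r : V} (hr : r ∈ S) :
    PDef (QF α β S) (S.erase r) :=
  pdef_Qfr_erase (fun x _ y _ => JJ_nonneg hβ.le x y) hr fun _ _ h => JJ_pos hβ h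

theorem QF_self (α β : ℝ) (S : Finset V) (f : V → ℝ) :
    QF α β S f f = ∑ x ∈ S, ∑ y ∈ S, JJ α β x y / 2 * (f x - f y) ^ 2 := Qfr_self _ _ _

theorem kil_nonneg {α β : ℝ} (hβ : 0 ≤ β) (Λ : Finset V) (x : V) : 0 ≤ kil α β Λ x := by
  unfold kil
  refine tsum_nonneg fun y => ?_
  split_ifs
  · exact le_rfl
  · exact JJ_nonneg hβ x y

theorem summable_kil {α : ℝ} (hα : 2 < α) {β : ℝ} (hβ : 0 ≤ β) (Λ : Finset V) (x : V) :
    Summable fun y : V => if y ∈ Λ then 0 else JJ α β x y := by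
  refine (summable_JJ hα β x).of_nonneg_of_le (fun y => ?_) fun y => ?_
  · split_ifs
    · exact le_rfl
    · exact JJ_nonneg hβ x y
  · split_ifs
    · exact JJ_nonneg hβ x y
    · exact le_rfl

theorem kil_pos {α : ℝ} (hα : 2 < α) {β : ℝ} (hβ : 0 < β) (Λ : Finset V) (x : V) :
    0 < kil α β Λ x := by
  obtain ⟨y, hy⟩ := Infinite.exists_notMem_finset (insert x Λ)
  rw [Finset.mem_insert, not_or] at hy
  have h1 : (if y ∈ Λ then 0 else JJ α β x y) ≤ kil α β Λ x := by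
    unfold kil
    refine (summable_kil hα hβ.le Λ x).le_tsum y fun z _ => ?_
    split_ifs
    · exact le_rfl
    · exact JJ_nonneg hβ.le x z
  rw [if_neg hy.2] at h1
  exact lt_of_lt_of_le (JJ_pos hβ (Ne.symm hy.1)) h1

theorem isForm_QD {α β : ℝ} (hβ : 0 ≤ β) (Λ : Finset V) : IsForm (QD α β Λ) :=
  (isForm_QF hβ Λ).add (isForm_massF fun x _ => kil_nonneg hβ Λ x)

theorem QD_self (α β : ℝ) (Λ : Finset V) (f : V → ℝ) :
    QD α β Λ f f = ∑ x ∈ Λ, ∑ y ∈ Λ, JJ α β x y / 2 * (f x - f y) ^ 2 +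
      ∑ x ∈ Λ, kil α β Λ x * f x ^ 2 := by
  unfold QD
  rw [LinearMap.add_apply, LinearMap.add_apply, Qfr_self, massF_apply]
  congr 1
  refine Finset.sum_congr rfl fun x _ => by ring

theorem pdef_QD {α : ℝ} (hα : 2 < α) {β : ℝ} (hβ : 0 < β) (Λ : Finset V) : PDef (QD α β Λ) Λ := by
  intro f hf h0
  obtain ⟨x, hx⟩ := Function.ne_iff.1 h0
  have hxΛ : x ∈ Λ := by
    by_contra h
    exact hx (hf x h)
  rw [QD_self]
  have h1 : 0 ≤ ∑ x ∈ Λ, ∑ y ∈ Λ, JJ α β x y / 2 * (f x - f y) ^ 2 :=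
    Finset.sum_nonneg fun x _ => Finset.sum_nonneg fun y _ => by
      have := JJ_nonneg (α := α) hβ.le x y
      positivity
  have h2 : kil α β Λ x * f x ^ 2 ≤ ∑ x ∈ Λ, kil α β Λ x * f x ^ 2 :=
    Finset.single_le_sum (f := fun x => kil α β Λ x * f x ^ 2)
      (fun x _ => mul_nonneg (kil_nonneg hβ.le Λ x) (sq_nonneg _)) hxΛ
  have h3 : 0 < kil α β Λ x * f x ^ 2 := by
    have h5 : f x ≠ 0 := hx
    have h4 : 0 < f x ^ 2 := by positivity
    exact mul_pos (kil_pos hα hβ Λ x) h4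
  linarith

/-- Splitting the killing rate. -/
theorem kil_split {α : ℝ} (hα : 2 < α) {β : ℝ} (hβ : 0 ≤ β) {Λ Λ' : Finset V} (h : Λ ⊆ Λ')
    (x : V) : kil α β Λ x = kil α β Λ' x + ∑ y ∈ Λ' \ Λ, JJ α β x y := by
  have h1 : ∑ y ∈ Λ' \ Λ, JJ α β x y = ∑' y : V, if y ∈ Λ' \ Λ then JJ α β x y else 0 := by
    rw [tsum_eq_sum (s := Λ' \ Λ)]
    · refine Finset.sum_congr rfl fun y hy => by rw [if_pos hy]
    · intro y hy
      rw [if_neg hy]
  have h2 : Summable fun y : V => if y ∈ Λ' \ Λ then JJ α β x y else 0 :=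
    summable_of_ne_finset_zero (s := Λ' \ Λ) fun y hy => by rw [if_neg hy]
  rw [h1]
  unfold kil
  rw [← (summable_kil hα hβ Λ' x).tsum_add h2]
  refine tsum_congr fun y => ?_
  by_cases h3 : y ∈ Λ
  · simp [h3, h h3]
  · by_cases h4 : y ∈ Λ'
    · simp [h3, h4]
    · simp [h3, h4]

/-- The Dirichlet form does not depend on the set as long as it contains the support. -/
theorem QD_eq_of_subset {α : ℝ} (hα : 2 < α) {β : ℝ} (hβ : 0 ≤ β) {Λ Λ' : Finset V} (h : Λ ⊆ Λ')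
    {f : V → ℝ} (hf : Supp Λ f) : QD α β Λ f f = QD α β Λ' f f := by
  rw [QD_self, QD_self]
  have hsplit : ∀ g : V → ℝ, ∑ x ∈ Λ', g x = ∑ x ∈ Λ, g x + ∑ x ∈ Λ' \ Λ, g x := fun g => by
    rw [add_comm, Finset.sum_sdiff h]
  have h0 : ∀ x ∈ Λ' \ Λ, f x = 0 := fun x hx => hf x (Finset.mem_sdiff.1 hx).2
  have e1 : ∑ x ∈ Λ', ∑ y ∈ Λ', JJ α β x y / 2 * (f x - f y) ^ 2 =
      ∑ x ∈ Λ, ∑ y ∈ Λ, JJ α β x y / 2 * (f x - f y) ^ 2 +
        ∑ x ∈ Λ, ∑ y ∈ Λ' \ Λ, JJ α β x y * f x ^ 2 := by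
    rw [hsplit]
    have a1 : ∑ x ∈ Λ, ∑ y ∈ Λ', JJ α β x y / 2 * (f x - f y) ^ 2 =
        ∑ x ∈ Λ, ∑ y ∈ Λ, JJ α β x y / 2 * (f x - f y) ^ 2 +
          ∑ x ∈ Λ, ∑ y ∈ Λ' \ Λ, JJ α β x y / 2 * f x ^ 2 := by
      rw [← Finset.sum_add_distrib]
      refine Finset.sum_congr rfl fun x _ => ?_
      rw [hsplit]
      congr 1
      refine Finset.sum_congr rfl fun y hy => ?_
      rw [h0 y hy, sub_zero]
    have a2 : ∑ x ∈ Λ' \ Λ, ∑ y ∈ Λ', JJ α β x y / 2 * (f x - f y) ^ 2 =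
        ∑ x ∈ Λ, ∑ y ∈ Λ' \ Λ, JJ α β x y / 2 * f x ^ 2 := by
      have b0 : ∀ x ∈ Λ' \ Λ, ∑ y ∈ Λ', JJ α β x y / 2 * (f x - f y) ^ 2 =
          ∑ y ∈ Λ, JJ α β y x / 2 * f y ^ 2 := by
        intro x hx
        rw [hsplit]
        have b1 : ∑ y ∈ Λ, JJ α β x y / 2 * (f x - f y) ^ 2 =
            ∑ y ∈ Λ, JJ α β y x / 2 * f y ^ 2 := by
          refine Finset.sum_congr rfl fun y _ => ?_
          rw [h0 x hx, JJ_symm α β x y]
          ring
        have b2 : ∑ y ∈ Λ' \ Λ, JJ α β x y / 2 * (f x - f y) ^ 2 = 0 := by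
          refine Finset.sum_eq_zero fun y hy => ?_
          rw [h0 x hx, h0 y hy]
          ring
        rw [b1, b2, add_zero]
      rw [Finset.sum_congr rfl b0, Finset.sum_comm]
    rw [a1, a2, add_assoc, ← Finset.sum_add_distrib]
    congr 1
    refine Finset.sum_congr rfl fun x _ => ?_
    rw [← Finset.sum_add_distrib]
    refine Finset.sum_congr rfl fun y _ => by ring
  have e2 : ∑ x ∈ Λ', kil α β Λ' x * f x ^ 2 = ∑ x ∈ Λ, kil α β Λ' x * f x ^ 2 := by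
    rw [hsplit]
    rw [Finset.sum_eq_zero (s := Λ' \ Λ), add_zero]
    intro x hx
    rw [h0 x hx]
    ring
  have e3 : ∑ x ∈ Λ, kil α β Λ x * f x ^ 2 =
      ∑ x ∈ Λ, ∑ y ∈ Λ' \ Λ, JJ α β x y * f x ^ 2 + ∑ x ∈ Λ, kil α β Λ' x * f x ^ 2 := by
    rw [← Finset.sum_add_distrib]
    refine Finset.sum_congr rfl fun x _ => ?_
    rw [kil_split hα hβ h x, ← Finset.sum_mul]
    ring
  rw [e1, e2, e3]
  ring

/-- Crude bound on the free form. -/
theorem QF_le {α : ℝ} (hα : 4 < α) {β : ℝ} (hβ : 0 ≤ β) (S : Finset V) (f : V → ℝ) {L : ℝ}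
    (hL : ∀ x ∈ S, ∀ y ∈ S, |f x - f y| ≤ L * len (x - y)) :
    QF α β S f f ≤ 2 * cc α β * L ^ 2 * S.card := by
  rw [QF_self]
  have h1 : ∀ x ∈ S, ∑ y ∈ S, JJ α β x y / 2 * (f x - f y) ^ 2 ≤ 2 * cc α β * L ^ 2 := by
    intro x hx
    have hs : Summable fun y : V => JJ α β x y * len (x - y) ^ 2 := by
      have h := (Equiv.subLeft x).summable_iff.2 (summable_Jc_len_sq hα β)
      refine h.congr fun y => ?_
      simp only [Function.comp_apply, Equiv.subLeft_apply, JJ]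
    have ht : ∑' y : V, JJ α β x y * len (x - y) ^ 2 = 4 * cc α β := by
      rw [← tsum_Jc_len_sq, ← (Equiv.subLeft x).tsum_eq (fun v => Jc α β v * len v ^ 2)]
      refine tsum_congr fun y => ?_
      simp only [Equiv.subLeft_apply, JJ]
    calc ∑ y ∈ S, JJ α β x y / 2 * (f x - f y) ^ 2
        ≤ ∑ y ∈ S, L ^ 2 / 2 * (JJ α β x y * len (x - y) ^ 2) := by
          refine Finset.sum_le_sum fun y hy => ?_
          have h2 := hL x hx y hy
          have h3 : (f x - f y) ^ 2 ≤ (L * len (x - y)) ^ 2 := sq_le_sq' (by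
            have := abs_le.1 h2; linarith) (abs_le.1 h2).2
          have h4 := JJ_nonneg (α := α) hβ x y
          nlinarith [mul_le_mul_of_nonneg_left h3 h4]
      _ = L ^ 2 / 2 * ∑ y ∈ S, JJ α β x y * len (x - y) ^ 2 := by rw [Finset.mul_sum]
      _ ≤ L ^ 2 / 2 * ∑' y : V, JJ α β x y * len (x - y) ^ 2 := by
          apply mul_le_mul_of_nonneg_left _ (by positivity)
          exact hs.sum_le_tsum _ fun y _ => mul_nonneg (JJ_nonneg hβ x y) (sq_nonneg _)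
      _ = 2 * cc α β * L ^ 2 := by rw [ht]; ring
  calc _ ≤ ∑ _x ∈ S, 2 * cc α β * L ^ 2 := Finset.sum_le_sum h1
    _ = _ := by rw [Finset.sum_const, nsmul_eq_mul]; ring

end Pool.Agent.LR
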