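import Pool.Agent.LR.Defs

/-!
# Coupling facts and basic facts about the forms (common file, helper32)
-/

set_option autoImplicit false

noncomputable section

open scoped BigOperators Topology
open MeasureTheory Filter Set

namespace Pool.Agent.LR

/-! ## Lengths -/

theorem len_nonneg (v : V) : 0 ≤ len v := Real.sqrt_nonneg _

theorem len_sq (v : V) : len v ^ 2 = (v.1 : ℝ) ^ 2 + (v.2 : ℝ) ^ 2 := by
  unfold len
  rw [Real.sq_sqrt]
  positivity

theorem len_zero : len 0 = 0 := by simp [len]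

theorem one_le_len {v : V} (hv : v ≠ 0) : 1 ≤ len v := by
  unfold len
  rw [Real.one_le_sqrt]
  rcases v with ⟨a, b⟩
  have h : a ≠ 0 ∨ b ≠ 0 := by
    by_contra h
    push Not at h
    exact hv (by rw [h.1, h.2]; rfl)
  have key : ∀ c : ℤ, c ≠ 0 → (1 : ℝ) ≤ (c : ℝ) ^ 2 := by
    intro c hc
    have h1 : (1 : ℤ) ≤ c ^ 2 := by
      have := sq_nonneg c
      rcases lt_or_gt_of_ne hc with h | h <;> nlinarith
    exact_mod_cast h1
  rcases h with h | h
  · have := key a h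
    have h2 := sq_nonneg (b : ℝ)
    simp only
    linarith
  · have := key b h
    have h2 := sq_nonneg (a : ℝ)
    simp only
    linarith

theorem len_pos {v : V} (hv : v ≠ 0) : 0 < len v := lt_of_lt_of_le one_pos (one_le_len hv)

theorem len_neg (v : V) : len (-v) = len v := by simp [len]

theorem len_swap (v : V) : len (v.2, v.1) = len v := by
  unfold len
  congr 1
  ring

theorem len_neg_fst (v : V) : len (-v.1, v.2) = len v := by simp [len]

theorem len_neg_snd (v : V) : len (v.1, -v.2) = len v := by simp [len]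

theorem abs_fst_le_len (v : V) : |(v.1 : ℝ)| ≤ len v := by
  unfold len
  apply Real.abs_le_sqrt
  nlinarith [sq_nonneg (v.2 : ℝ)]

theorem abs_snd_le_len (v : V) : |(v.2 : ℝ)| ≤ len v := by
  unfold len
  apply Real.abs_le_sqrt
  nlinarith [sq_nonneg (v.1 : ℝ)]

theorem len_le_add_abs (v : V) : len v ≤ |(v.1 : ℝ)| + |(v.2 : ℝ)| := by
  unfold len
  rw [Real.sqrt_le_left (by positivity)]
  have h1 := sq_abs (v.1 : ℝ)
  have h2 := sq_abs (v.2 : ℝ)
  have h3 : 0 ≤ |(v.1 : ℝ)| * |(v.2 : ℝ)| := by positivity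
  nlinarith

theorem len_add_le (v w : V) : len (v + w) ≤ len v + len w := by
  have hv := len_nonneg v
  have hw := len_nonneg w
  unfold len at *
  rw [Real.sqrt_le_left (by positivity)]
  have h1 := Real.sq_sqrt (show 0 ≤ (v.1 : ℝ) ^ 2 + (v.2 : ℝ) ^ 2 by positivity)
  have h2 := Real.sq_sqrt (show 0 ≤ (w.1 : ℝ) ^ 2 + (w.2 : ℝ) ^ 2 by positivity)
  have h3 : (v.1 : ℝ) * w.1 + (v.2 : ℝ) * w.2 ≤
      Real.sqrt ((v.1 : ℝ) ^ 2 + (v.2 : ℝ) ^ 2) * Real.sqrt ((w.1 : ℝ) ^ 2 + (w.2 : ℝ) ^ 2) := by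
    rw [← Real.sqrt_mul (by positivity)]
    apply Real.le_sqrt_of_sq_le
    nlinarith [sq_nonneg ((v.1 : ℝ) * w.2 - (v.2 : ℝ) * w.1)]
  have h4 : ((v + w).1 : ℝ) = v.1 + w.1 := by simp
  have h5 : ((v + w).2 : ℝ) = v.2 + w.2 := by simp
  rw [h4, h5]
  nlinarith

/-! ## The coupling -/

theorem Jc_nonneg {α β : ℝ} (hβ : 0 ≤ β) (v : V) : 0 ≤ Jc α β v := by
  unfold Jc
  split_ifs
  · exact le_rfl
  · have := len_nonneg v
    positivity

theorem Jc_pos {α β : ℝ} (hβ : 0 < β) {v : V} (hv : v ≠ 0) : 0 < Jc α β v := by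
  unfold Jc
  rw [if_neg hv]
  have := len_pos hv
  positivity

theorem Jc_zero (α β : ℝ) : Jc α β 0 = 0 := by simp [Jc]

theorem Jc_of_ne {α β : ℝ} {v : V} (hv : v ≠ 0) : Jc α β v = 4 * β * len v ^ (-α) := by
  simp [Jc, hv]

theorem Jc_neg (α β : ℝ) (v : V) : Jc α β (-v) = Jc α β v := by
  unfold Jc
  simp [len_neg]

theorem Jc_swap (α β : ℝ) (v : V) : Jc α β (v.2, v.1) = Jc α β v := by
  unfold Jc
  rw [len_swap]
  have : ((v.2, v.1) : V) = 0 ↔ v = 0 := by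
    rcases v with ⟨a, b⟩
    simp [Prod.ext_iff, and_comm]
  simp only [this]

theorem Jc_neg_fst (α β : ℝ) (v : V) : Jc α β (-v.1, v.2) = Jc α β v := by
  unfold Jc
  rw [len_neg_fst]
  have : ((-v.1, v.2) : V) = 0 ↔ v = 0 := by
    rcases v with ⟨a, b⟩
    simp [Prod.ext_iff]
  simp only [this]

theorem Jc_neg_snd (α β : ℝ) (v : V) : Jc α β (v.1, -v.2) = Jc α β v := by
  unfold Jc
  rw [len_neg_snd]
  have : ((v.1, -v.2) : V) = 0 ↔ v = 0 := by
    rcases v with ⟨a, b⟩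
    simp [Prod.ext_iff]
  simp only [this]

theorem Jc_linear_beta (α β : ℝ) (v : V) : Jc α β v = β * Jc α 1 v := by
  unfold Jc
  split_ifs
  · simp
  · ring

theorem JJ_symm (α β : ℝ) (x y : V) : JJ α β x y = JJ α β y x := by
  unfold JJ
  rw [← Jc_neg, neg_sub]

theorem JJ_nonneg {α β : ℝ} (hβ : 0 ≤ β) (x y : V) : 0 ≤ JJ α β x y := Jc_nonneg hβ _

theorem JJ_pos {α β : ℝ} (hβ : 0 < β) {x y : V} (h : x ≠ y) : 0 < JJ α β x y :=
  Jc_pos hβ (sub_ne_zero.2 h)

theorem JJ_self (α β : ℝ) (x : V) : JJ α β x x = 0 := by simp [JJ, Jc_zero]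

theorem JJ_add_right (α β : ℝ) (x y v : V) : JJ α β (x + v) (y + v) = JJ α β x y := by
  simp [JJ]

/-! ## Summability -/

theorem norm_le_len (v : V) : ‖v‖ ≤ len v := by
  rw [Prod.norm_def]
  apply max_le
  · rw [← Int.norm_cast_real, Real.norm_eq_abs]
    exact abs_fst_le_len v
  · rw [← Int.norm_cast_real, Real.norm_eq_abs]
    exact abs_snd_le_len v

theorem norm_pos_of_ne {v : V} (hv : v ≠ 0) : 0 < ‖v‖ := norm_pos_iff.2 hv

/-- `∑ |v|^{-s} < ∞` for `s > 2`. -/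
theorem summable_len_rpow {s : ℝ} (hs : 2 < s) : Summable fun v : V => len v ^ (-s) := by
  have h0 : Summable fun v : V => ‖v‖ ^ (-s) := by
    have h := (finTwoArrowEquiv ℤ).symm.summable_iff.2
      (EisensteinSeries.summable_one_div_norm_rpow hs)
    refine h.congr fun v => ?_
    simp only [finTwoArrowEquiv_symm_apply, Function.comp_def]
    congr 1
    rw [Prod.norm_def, EisensteinSeries.norm_eq_max_natAbs]
    simp [Int.norm_eq_abs, Nat.cast_natAbs]
  refine h0.of_nonneg_of_le (fun v => Real.rpow_nonneg (len_nonneg v) _) fun v => ?_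
  by_cases hv : v = 0
  · subst hv
    rw [len_zero, norm_zero]
  · exact Real.rpow_le_rpow_of_nonpos (norm_pos_of_ne hv) (norm_le_len v) (by linarith)

theorem Jc_le_rpow {α β : ℝ} (hβ : 0 ≤ β) (v : V) : Jc α β v ≤ 4 * β * len v ^ (-α) := by
  unfold Jc
  have := len_nonneg v
  split_ifs
  · positivity
  · exact le_rfl

theorem Jc_eq_rpow {α β : ℝ} (hα : α ≠ 0) (v : V) : Jc α β v = 4 * β * len v ^ (-α) := by
  by_cases hv : v = 0
  · subst hv
    rw [Jc_zero, len_zero, Real.zero_rpow (by simpa using hα), mul_zero]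
  · exact Jc_of_ne hv

theorem summable_Jc {α : ℝ} (hα : 2 < α) (β : ℝ) : Summable (Jc α β) := by
  have h := (summable_len_rpow hα).mul_left (4 * β)
  refine h.congr fun v => ?_
  rw [Jc_eq_rpow (by linarith)]

theorem len_rpow_mul_sq {α : ℝ} (v : V) (hv : v ≠ 0) :
    len v ^ (-α) * len v ^ 2 = len v ^ (-(α - 2)) := by
  rw [← Real.rpow_natCast (len v) 2, ← Real.rpow_add (len_pos hv)]
  congr 1
  push_cast
  ring

theorem Jc_mul_len_sq {α β : ℝ} (hα : 4 < α) (v : V) :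
    Jc α β v * len v ^ 2 = 4 * β * len v ^ (-(α - 2)) := by
  by_cases hv : v = 0
  · subst hv
    rw [Jc_zero, len_zero, Real.zero_rpow (by linarith)]
    simp
  · rw [Jc_of_ne hv, mul_assoc, len_rpow_mul_sq v hv]

theorem summable_Jc_len_sq {α : ℝ} (hα : 4 < α) (β : ℝ) :
    Summable fun v => Jc α β v * len v ^ 2 := by
  have h := (summable_len_rpow (s := α - 2) (by linarith)).mul_left (4 * β)
  refine h.congr fun v => ?_
  rw [Jc_mul_len_sq hα]

theorem tsum_Jc_len_sq (α β : ℝ) : ∑' v, Jc α β v * len v ^ 2 = 4 * cc α β := by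
  unfold cc
  ring

theorem summable_JJ {α : ℝ} (hα : 2 < α) (β : ℝ) (x : V) : Summable (JJ α β x) := by
  have h := (Equiv.subLeft x).summable_iff.2 (summable_Jc hα β)
  refine h.congr fun y => ?_
  simp only [Function.comp_apply, Equiv.subLeft_apply, JJ]

theorem tsum_JJ (α β : ℝ) (x : V) : ∑' y, JJ α β x y = ∑' v, Jc α β v := by
  rw [← (Equiv.subLeft x).tsum_eq (Jc α β)]
  refine tsum_congr fun y => ?_
  simp only [Equiv.subLeft_apply, JJ]

theorem cc_pos {α β : ℝ} (hα : 4 < α) (hβ : 0 < β) : 0 < cc α β := by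
  have hne : ((1, 0) : V) ≠ 0 := by
    intro h
    have := congrArg Prod.fst h
    simp at this
  have h1 : 0 < Jc α β (1, 0) * len (1, 0) ^ 2 := mul_pos (Jc_pos hβ hne) (pow_pos (len_pos hne) 2)
  have h2 : Jc α β (1, 0) * len (1, 0) ^ 2 ≤ ∑' v, Jc α β v * len v ^ 2 :=
    (summable_Jc_len_sq hα β).le_tsum (1, 0)
      (fun v _ => mul_nonneg (Jc_nonneg hβ.le v) (sq_nonneg _))
  unfold cc
  linarith

/-- Tail bound with any exponent `s < α - 2`. -/
theorem tail_Jc {α : ℝ} {s : ℝ} (hs0 : 0 ≤ s) (hs : s < α - 2) {β : ℝ} (hβ : 0 ≤ β) :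
    ∃ C > 0, ∀ R : ℝ, 0 < R →
      ∑' v : V, (if R < len v then Jc α β v else 0) ≤ C * R ^ (-s) := by
  have hsum := (summable_len_rpow (s := α - s) (by linarith)).mul_left (4 * β)
  refine ⟨∑' v : V, 4 * β * len v ^ (-(α - s)) + 1, ?_, ?_⟩
  · have : 0 ≤ ∑' v : V, 4 * β * len v ^ (-(α - s)) :=
      tsum_nonneg fun v => by have := len_nonneg v; positivity
    linarith
  · intro R hR
    have hle : ∀ v : V, (if R < len v then Jc α β v else 0) ≤
        (4 * β * len v ^ (-(α - s))) * R ^ (-s) := by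
      intro v
      have hlv := len_nonneg v
      split_ifs with h
      · have hv : v ≠ 0 := by
          rintro rfl
          rw [len_zero] at h
          linarith
        rw [Jc_of_ne hv, mul_assoc (4 * β)]
        apply mul_le_mul_of_nonneg_left _ (by positivity)
        have h1 : len v ^ (-α) = len v ^ (-(α - s)) * len v ^ (-s) := by
          rw [← Real.rpow_add (len_pos hv)]
          congr 1
          ring
        rw [h1]
        apply mul_le_mul_of_nonneg_left _ (by positivity)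
        exact Real.rpow_le_rpow_of_nonpos hR h.le (by linarith)
      · positivity
    have h0 : ∀ v : V, 0 ≤ (if R < len v then Jc α β v else 0) := by
      intro v
      split_ifs
      · exact Jc_nonneg hβ v
      · exact le_rfl
    have hs2 := hsum.mul_right (R ^ (-s))
    calc ∑' v : V, (if R < len v then Jc α β v else 0)
        ≤ ∑' v : V, (4 * β * len v ^ (-(α - s))) * R ^ (-s) :=
          (hs2.of_nonneg_of_le h0 hle).tsum_le_tsum hle hs2
      _ = (∑' v : V, 4 * β * len v ^ (-(α - s))) * R ^ (-s) := tsum_mul_right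
      _ ≤ _ := by
          apply mul_le_mul_of_nonneg_right _ (by positivity)
          linarith

/-! ## Isotropy -/

theorem summable_Jc_fst_sq {α : ℝ} (hα : 4 < α) {β : ℝ} (hβ : 0 ≤ β) :
    Summable fun v => Jc α β v * (v.1 : ℝ) ^ 2 := by
  refine (summable_Jc_len_sq hα β).of_nonneg_of_le
    (fun v => mul_nonneg (Jc_nonneg hβ v) (sq_nonneg _)) fun v => ?_
  apply mul_le_mul_of_nonneg_left _ (Jc_nonneg hβ v)
  rw [len_sq]
  nlinarith [sq_nonneg (v.2 : ℝ)]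

theorem summable_Jc_snd_sq {α : ℝ} (hα : 4 < α) {β : ℝ} (hβ : 0 ≤ β) :
    Summable fun v => Jc α β v * (v.2 : ℝ) ^ 2 := by
  refine (summable_Jc_len_sq hα β).of_nonneg_of_le
    (fun v => mul_nonneg (Jc_nonneg hβ v) (sq_nonneg _)) fun v => ?_
  apply mul_le_mul_of_nonneg_left _ (Jc_nonneg hβ v)
  rw [len_sq]
  nlinarith [sq_nonneg (v.1 : ℝ)]

theorem summable_Jc_mul {α : ℝ} (hα : 4 < α) {β : ℝ} (hβ : 0 ≤ β) :
    Summable fun v => Jc α β v * ((v.1 : ℝ) * v.2) := by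
  refine (summable_Jc_len_sq hα β).of_norm_bounded fun v => ?_
  rw [Real.norm_eq_abs, abs_mul, abs_of_nonneg (Jc_nonneg hβ v)]
  apply mul_le_mul_of_nonneg_left _ (Jc_nonneg hβ v)
  rw [len_sq, abs_mul]
  nlinarith [sq_nonneg (|(v.1 : ℝ)| - |(v.2 : ℝ)|), sq_abs (v.1 : ℝ), sq_abs (v.2 : ℝ)]

/-- Swap of coordinates on sites. -/
def swapV : V ≃ V := Equiv.prodComm ℤ ℤ

theorem tsum_Jc_fst_eq_snd (α β : ℝ) :
    ∑' v, Jc α β v * (v.1 : ℝ) ^ 2 = ∑' v, Jc α β v * (v.2 : ℝ) ^ 2 := by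
  rw [← swapV.tsum_eq (fun v : V => Jc α β v * (v.2 : ℝ) ^ 2)]
  refine tsum_congr fun v => ?_
  have : Jc α β (swapV v) = Jc α β v := Jc_swap α β v
  rw [this]
  rfl

theorem tsum_Jc_fst_sq {α : ℝ} (hα : 4 < α) {β : ℝ} (hβ : 0 ≤ β) :
    ∑' v, Jc α β v * (v.1 : ℝ) ^ 2 = 2 * cc α β := by
  have h1 : ∑' v, Jc α β v * len v ^ 2 =
      ∑' v, Jc α β v * (v.1 : ℝ) ^ 2 + ∑' v, Jc α β v * (v.2 : ℝ) ^ 2 := by
    rw [← (summable_Jc_fst_sq hα hβ).tsum_add (summable_Jc_snd_sq hα hβ)]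
    refine tsum_congr fun v => ?_
    rw [len_sq]
    ring
  rw [tsum_Jc_len_sq, ← tsum_Jc_fst_eq_snd] at h1
  linarith

theorem tsum_Jc_snd_sq {α : ℝ} (hα : 4 < α) {β : ℝ} (hβ : 0 ≤ β) :
    ∑' v, Jc α β v * (v.2 : ℝ) ^ 2 = 2 * cc α β := by
  rw [← tsum_Jc_fst_eq_snd, tsum_Jc_fst_sq hα hβ]

/-- Reflection of the first coordinate. -/
def negFst : V ≃ V := (Equiv.neg ℤ).prodCongr (Equiv.refl ℤ)

theorem tsum_Jc_mul (α β : ℝ) : ∑' v, Jc α β v * ((v.1 : ℝ) * v.2) = 0 := by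
  have h : ∑' v, Jc α β v * ((v.1 : ℝ) * v.2) = - ∑' v, Jc α β v * ((v.1 : ℝ) * v.2) := by
    conv_lhs => rw [← negFst.tsum_eq (fun v : V => Jc α β v * ((v.1 : ℝ) * v.2))]
    rw [← tsum_neg]
    refine tsum_congr fun v => ?_
    have : Jc α β (negFst v) = Jc α β v := Jc_neg_fst α β v
    rw [this]
    simp [negFst]
  linarith

/-- `∑ J_v (a v₁ + b v₂)² = 2 c (a² + b²)`. -/
theorem tsum_Jc_lin_sq {α : ℝ} (hα : 4 < α) {β : ℝ} (hβ : 0 ≤ β) (a b : ℝ) :
    ∑' v, Jc α β v * (a * v.1 + b * v.2) ^ 2 = 2 * cc α β * (a ^ 2 + b ^ 2) := by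
  have h1 := (summable_Jc_fst_sq hα hβ).mul_left (a ^ 2)
  have h2 := (summable_Jc_snd_sq hα hβ).mul_left (b ^ 2)
  have h3 := (summable_Jc_mul hα hβ).mul_left (2 * a * b)
  have : ∀ v : V, Jc α β v * (a * v.1 + b * v.2) ^ 2 =
      (a ^ 2 * (Jc α β v * (v.1 : ℝ) ^ 2) + b ^ 2 * (Jc α β v * (v.2 : ℝ) ^ 2)) +
        2 * a * b * (Jc α β v * ((v.1 : ℝ) * v.2)) := fun v => by ring
  simp_rw [this]
  rw [(h1.add h2).tsum_add h3, h1.tsum_add h2, tsum_mul_left, tsum_mul_left, tsum_mul_left,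
    tsum_Jc_fst_sq hα hβ, tsum_Jc_snd_sq hα hβ, tsum_Jc_mul]
  ring

theorem summable_Jc_lin_sq {α : ℝ} (hα : 4 < α) {β : ℝ} (hβ : 0 ≤ β) (a b : ℝ) :
    Summable fun v => Jc α β v * (a * (v.1 : ℝ) + b * v.2) ^ 2 := by
  have h1 := (summable_Jc_fst_sq hα hβ).mul_left (a ^ 2)
  have h2 := (summable_Jc_snd_sq hα hβ).mul_left (b ^ 2)
  have h3 := (summable_Jc_mul hα hβ).mul_left (2 * a * b)
  refine ((h1.add h2).add h3).congr fun v => by ring

end Pool.Agent.LR
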