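import Mathlib

/-!
# The two-dimensional long-range integer-valued Gaussian free field: common definitions

`V = ℤ × ℤ` sites, `P = ℝ × ℝ` plane.  All forms are bilinear forms on `V → ℝ` which depend on
finitely many coordinates; all lattices are `ℤ^O`, `O : Finset V`, embedded by `emb O`.
-/

set_option autoImplicit false

noncomputable section

open scoped BigOperators Topology
open MeasureTheory Filter Set

namespace Pool.Agent.LR

/-! ## Generic part (any type of sites) -/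

section Generic

variable {W : Type*} [DecidableEq W]

/-- A bilinear form on `W → ℝ`. -/
abbrev BF (W : Type*) := (W → ℝ) →ₗ[ℝ] (W → ℝ) →ₗ[ℝ] ℝ

/-- Symmetric and nonnegative. -/
structure IsForm (M : BF W) : Prop where
  symm : ∀ f g, M f g = M g f
  nonneg : ∀ f, 0 ≤ M f f

/-- `f` vanishes off `O`. -/
def Supp (O : Finset W) (f : W → ℝ) : Prop := ∀ x, x ∉ O → f x = 0

/-- Positive definite on the functions supported in `O`. -/
def PDef (M : BF W) (O : Finset W) : Prop := ∀ f, Supp O f → f ≠ 0 → 0 < M f f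

/-- Extension by zero of an integer field on `O`. -/
def emb (O : Finset W) (ψ : O → ℤ) : W → ℝ := fun x => if h : x ∈ O then (ψ ⟨x, h⟩ : ℝ) else 0

/-- `⟨f, φ⟩ = ∑_{x ∈ O} f x * φ x`. -/
def pr (O : Finset W) (f φ : W → ℝ) : ℝ := ∑ x ∈ O, f x * φ x

/-- Weight of the integer field `ψ` in the model with form `M` and shift `h`. -/
def wt (M : BF W) (O : Finset W) (h : W → ℝ) (ψ : O → ℤ) : ℝ :=
  Real.exp (-(1 / 2) * M (emb O ψ - h) (emb O ψ - h))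

/-- `Θ_M(h) = ∑_{ψ ∈ ℤ^O} exp(-M(ψ - h)/2)`. -/
def Th (M : BF W) (O : Finset W) (h : W → ℝ) : ℝ := ∑' ψ : O → ℤ, wt M O h ψ

/-- `E_M(h) = -log(Θ_M(h)/Θ_M(0))`. -/
def En (M : BF W) (O : Finset W) (h : W → ℝ) : ℝ := -Real.log (Th M O h / Th M O 0)

/-- Expectation of `F` in the model with shift `h`. -/
def Ex (M : BF W) (O : Finset W) (h : W → ℝ) (F : (O → ℤ) → ℝ) : ℝ :=
  (∑' ψ : O → ℤ, wt M O h ψ * F ψ) / Th M O h

/-- Unnormalised tilted sum: `∑ F(ψ) exp(-M(ψ)/2 + ⟨f, ψ⟩)`. -/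
def Su (M : BF W) (O : Finset W) (f : W → ℝ) (F : (O → ℤ) → ℝ) : ℝ :=
  ∑' ψ : O → ℤ, wt M O 0 ψ * Real.exp (pr O f (emb O ψ)) * F ψ

/-- Expectation in the model tilted by `exp ⟨f, ψ⟩`. -/
def Et (M : BF W) (O : Finset W) (f : W → ℝ) (F : (O → ℤ) → ℝ) : ℝ :=
  Su M O f F / Su M O f (fun _ => 1)

/-- Logarithm of the Laplace functional: `Λ(f) = log E_0 exp ⟨f, ψ⟩`. -/
def La (M : BF W) (O : Finset W) (f : W → ℝ) : ℝ :=
  Real.log (Ex M O 0 (fun ψ => Real.exp (pr O f (emb O ψ))))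

/-- Squared dual norm: `sup_{φ supported in O} (2 ⟨f, φ⟩ - M(φ))`. -/
def nsq (M : BF W) (O : Finset W) (f : W → ℝ) : ℝ :=
  sSup {r : ℝ | ∃ φ, Supp O φ ∧ r = 2 * pr O f φ - M φ φ}

/-- `u` is the potential of the charge `f`: supported in `O` and `M(u, φ) = ⟨f, φ⟩`. -/
def IsPot (M : BF W) (O : Finset W) (f u : W → ℝ) : Prop :=
  Supp O u ∧ ∀ φ, Supp O φ → M u φ = pr O f φ

/-- (Real, even) positive definite functions on the group `ℤ^O`. -/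
def IsPD (O : Finset W) (F : (O → ℤ) → ℝ) : Prop :=
  (∀ ψ, F (-ψ) = F ψ) ∧
    ∀ (s : Finset (O → ℤ)) (c : (O → ℤ) → ℝ), 0 ≤ ∑ x ∈ s, ∑ y ∈ s, c x * c y * F (x - y)

/-- The rank one form `φ, χ ↦ a * ℓ φ * ℓ χ`. -/
def rk (a : ℝ) (l : (W → ℝ) →ₗ[ℝ] ℝ) : BF W :=
  LinearMap.mk₂ ℝ (fun f g => a * l f * l g)
    (by intro x y z; simp; ring) (by intro c x y; simp; ring)
    (by intro x y z; simp; ring) (by intro c x y; simp; ring)

/-- Evaluation at a site. -/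
def ev (x : W) : (W → ℝ) →ₗ[ℝ] ℝ := LinearMap.proj x

/-- Average over a finite set. -/
def avg (B : Finset W) : (W → ℝ) →ₗ[ℝ] ℝ := (B.card : ℝ)⁻¹ • ∑ x ∈ B, ev x

/-- On-site masses. -/
def massF (S : Finset W) (t : W → ℝ) : BF W := ∑ x ∈ S, rk (t x) (ev x)

/-- Ferromagnetic form with couplings `J x y` on `S` (free): `1/2 ∑_{x,y∈S} J x y (φx-φy)²`. -/
def Qfr (J : W → W → ℝ) (S : Finset W) : BF W :=
  ∑ x ∈ S, ∑ y ∈ S, rk (J x y / 2) (ev x - ev y)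

/-- A root of a finite set of sites. -/
def root [Inhabited W] (S : Finset W) : W := if h : S.Nonempty then h.choose else default

/-- Energy functional of the (degenerate) free form: rooted lattice `ψ (root) = 0`; `h` arbitrary. -/
def Efr [Inhabited W] (J : W → W → ℝ) (S : Finset W) (h : W → ℝ) : ℝ :=
  En (Qfr J S) (S.erase (root S)) h

end Generic

/-! ## Sites, couplings, forms on `ℤ²` -/

/-- Sites. -/
abbrev V := ℤ × ℤ

/-- The plane. -/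
abbrev P := ℝ × ℝ

/-- Euclidean length of a lattice vector. -/
def len (v : V) : ℝ := Real.sqrt ((v.1 : ℝ) ^ 2 + (v.2 : ℝ) ^ 2)

/-- Euclidean length of a vector of the plane. -/
def lenP (z : P) : ℝ := Real.sqrt (z.1 ^ 2 + z.2 ^ 2)

/-- The coupling `4 β |v|^{-α}`, `0` at `v = 0`. -/
def Jc (α β : ℝ) (v : V) : ℝ := if v = 0 then 0 else 4 * β * len v ^ (-α)

/-- The coupling as a function of two sites. -/
def JJ (α β : ℝ) (x y : V) : ℝ := Jc α β (x - y)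

/-- Macroscopic stiffness `c = 1/4 ∑ J_v |v|²`. -/
def cc (α β : ℝ) : ℝ := (1 / 4) * ∑' v : V, Jc α β v * len v ^ 2

/-- Killing rate of the Dirichlet model on `Λ`. -/
def kil (α β : ℝ) (Λ : Finset V) (x : V) : ℝ := ∑' y : V, if y ∈ Λ then 0 else JJ α β x y

/-- Dirichlet form on `Λ` (coincides with the full energy for functions supported in `Λ`). -/
def QD (α β : ℝ) (Λ : Finset V) : BF V := Qfr (JJ α β) Λ + massF Λ (kil α β Λ)

/-- Free form on `S`. -/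
def QF (α β : ℝ) (S : Finset V) : BF V := Qfr (JJ α β) S

/-- Nearest neighbour couplings (`1` on nearest neighbours). -/
def Jnn (x y : V) : ℝ := if (x.1 - y.1) ^ 2 + (x.2 - y.2) ^ 2 = 1 then 1 else 0

/-- Nearest neighbour Dirichlet form `b * ∑_{nn pairs of ℤ²} (φx - φy)²`, for `φ` supported in `Λ`. -/
def Qnn (b : ℝ) (Λ : Finset V) : BF V :=
  b • (Qfr Jnn Λ + massF Λ (fun x => ∑ v ∈ ({(1, 0), (-1, 0), (0, 1), (0, -1)} : Finset V),
    if x + v ∈ Λ then 0 else 1))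

/-! ## Macroscopic objects -/

/-- The point `x / n`. -/
def sc (n : ℕ) (x : V) : P := ((x.1 : ℝ) / n, (x.2 : ℝ) / n)

/-- Sampling `H_n(x) = H(x/n)`. -/
def smp (H : P → ℝ) (n : ℕ) : V → ℝ := fun x => H (sc n x)

/-- Macroscopic charge `F_n(x) = n^{-2} F(x/n)`. -/
def chg (F : P → ℝ) (n : ℕ) : V → ℝ := fun x => F (sc n x) / (n : ℝ) ^ 2

/-- `|∇H|²`. -/
def gsq (H : P → ℝ) (z : P) : ℝ := (fderiv ℝ H z (1, 0)) ^ 2 + (fderiv ℝ H z (0, 1)) ^ 2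

/-- Laplacian. -/
def lapl (H : P → ℝ) (z : P) : ℝ :=
  fderiv ℝ (fun w => fderiv ℝ H w (1, 0)) z (1, 0) + fderiv ℝ (fun w => fderiv ℝ H w (0, 1)) z (0, 1)

/-- Dirichlet integral over the plane. -/
def Dir (H : P → ℝ) : ℝ := ∫ z, gsq H z

/-- Test functions of the open set `U` (smooth = `C^∞`; `⊤ : ℕ∞` is not the analytic class). -/
structure Test (U : Set P) (f : P → ℝ) : Prop where
  smooth : ContDiff ℝ ((⊤ : ℕ∞) : WithTop ℕ∞) f
  comp : HasCompactSupport f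
  supp : tsupport f ⊆ U

/-- `v_U(f) = sup_{φ ∈ C_c^∞(U)} (2∫ f φ - ∫ |∇φ|²)`, the variance of `Φ_U(f)`. -/
def vD (U : Set P) (f : P → ℝ) : ℝ :=
  sSup {r : ℝ | ∃ φ, Test U φ ∧ r = 2 * (∫ z, f z * φ z) - Dir φ}

/-- Stable open sets. -/
def Stable (D : Set P) : Prop :=
  ∀ f, Test D f → ∀ ε > 0, ∃ δ > 0, ∀ φ, Test (Metric.thickening δ D) φ →
    2 * (∫ z, f z * φ z) - Dir φ ≤ vD D f + ε

open Classical in
/-- The sites of `nD`. -/
def Lam (D : Set P) (n : ℕ) : Finset V :=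
  if h : {x : V | sc n x ∈ D}.Finite then h.toFinset else ∅

/-- Lattice version of the rectangle `[a,b] × [c,d]`. -/
def bx (a b c d : ℝ) (n : ℕ) : Finset V :=
  Finset.Icc ⌈n * a⌉ ⌊n * b⌋ ×ˢ Finset.Icc ⌈n * c⌉ ⌊n * d⌋

/-- The rectangle. -/
def rct (a b c d : ℝ) : Set P := Set.Icc a b ×ˢ Set.Icc c d


/-! ## The pinned model (section 6 of the blueprint) -/

/-- Index of the `δ`-grid cell of the site `x` at scale `n` (grid centred at `z₀`). -/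
def cel (z₀ : P) (δ : ℝ) (n : ℕ) (x : V) : V :=
  (⌊((sc n x).1 - z₀.1) / δ⌋, ⌊((sc n x).2 - z₀.2) / δ⌋)

/-- The closed cell with index `i`. -/
def cellP (z₀ : P) (δ : ℝ) (i : V) : Set P :=
  rct (z₀.1 + i.1 * δ) (z₀.1 + (i.1 + 1) * δ) (z₀.2 + i.2 * δ) (z₀.2 + (i.2 + 1) * δ)

/-- The closed shell `{a ρ ≤ |z - z₀| ≤ (a+1) ρ}`. -/
def shell (z₀ : P) (ρ : ℝ) (a : ℕ) : Set P := {z | a * ρ ≤ lenP (z - z₀) ∧ lenP (z - z₀) ≤ (a + 1) * ρ}

/-- The box `S_n` (lattice version of the square of half side `13 ρ` centred at `z₀`). -/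
def SS (z₀ : P) (ρ : ℝ) (n : ℕ) : Finset V :=
  bx (z₀.1 - 13 * ρ) (z₀.1 + 13 * ρ) (z₀.2 - 13 * ρ) (z₀.2 + 13 * ρ) n

open Classical in
/-- Indices of the pinned cells: cells contained in one of the shells `1, 3, 5`. -/
def pin (z₀ : P) (ρ δ : ℝ) : Finset V :=
  (Finset.Icc (-⌈13 * ρ / δ⌉) ⌈13 * ρ / δ⌉ ×ˢ Finset.Icc (-⌈13 * ρ / δ⌉) ⌈13 * ρ / δ⌉).filter
    (fun i => cellP z₀ δ i ⊆ shell z₀ ρ 1 ∨ cellP z₀ δ i ⊆ shell z₀ ρ 3 ∨ cellP z₀ δ i ⊆ shell z₀ ρ 5)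

/-- The sites of the cell `i`. -/
def blk (z₀ : P) (ρ δ : ℝ) (n : ℕ) (i : V) : Finset V :=
  (SS z₀ ρ n).filter (fun x => cel z₀ δ n x = i)

/-- The pinned form `M' = Q_{S_n} + ∑_i M δ² w_i ⊗ w_i`. -/
def MP (α β : ℝ) (z₀ : P) (ρ M δ : ℝ) (n : ℕ) : BF V :=
  QF α β (SS z₀ ρ n) + ∑ i ∈ pin z₀ ρ δ, rk (M * δ ^ 2) (avg (blk z₀ ρ δ n i))

end Pool.Agent.LR
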